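import Pool.Agent.SHA.StmtsB

/-!
# B_SYU: exact systems, `ρ ↦ ρ + 1`
-/

set_option autoImplicit false

namespace Pool.Agent.SHA.H48

theorem syu : SYUStmt := by
  intro a ρ h
  obtain ⟨ι, κ, iι, iκ, R, m, y, hc, hR, hm, hy, h1, h2, h3⟩ := h
  refine ⟨Option ι, Option κ, inferInstance, inferInstance,
    fun i j => match i, j with
      | none, none => 1
      | none, some _ => 0
      | some _, none => 0
      | some i, some j => R i j,
    fun i => match i with
      | none => 1
      | some i => m i,
    fun j => match j with
      | none => 1
      | some j => y j, ?_, ?_, ?_, ?_, ?_, ?_, ?_⟩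
  · rw [Fintype.card_option, hc]
  · rintro (_ | i) (_ | j)
    · exact Or.inr rfl
    · exact Or.inl rfl
    · exact Or.inl rfl
    · exact hR i j
  · rintro (_ | i)
    · exact zero_le_one
    · exact hm i
  · rintro (_ | j)
    · exact zero_le_one
    · exact hy j
  · rintro (_ | j)
    · rw [Fintype.sum_option]
      simp
    · rw [Fintype.sum_option]
      simp only [mul_zero, zero_add]
      exact h1 j
  · rintro (_ | i)
    · rw [Fintype.sum_option]
      simp
    · rw [Fintype.sum_option]
      simp only [zero_mul, zero_add]
      exact h2 i
  · rw [Fintype.sum_option, h3, add_comm]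

end Pool.Agent.SHA.H48
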